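import Pool.Agent.Q122.Anti.Table
import Pool.Agent.Q122.Anti.Sub

set_option autoImplicit false

namespace Pool.Agent.Results.MP_567833_co.NotSubadditive

open Q122.Anti

/-- Q1 of MP_567833_co is false: there are antimagic graphs `G` and `H` (the stars `K_{1,6}` and
`K_{1,17}`) such that `G ∪ H` is antimagic and `τ(G ∪ H) > τ(G) + τ(H)`. The parameter `τ` of a
graph is the greatest element of its `tauSet`. -/
theorem result : ∃ (V W : Type) (_ : Finite V) (_ : Finite W) (G : SimpleGraph V)
    (H : SimpleGraph W) (a b c : ℕ), IsAntimagic G ∧ IsAntimagic H ∧ IsAntimagic (G ⊕g H) ∧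
      IsGreatest (tauSet G) a ∧ IsGreatest (tauSet H) b ∧ IsGreatest (tauSet (G ⊕g H)) c ∧
      a + b < c := by
  refine ⟨Fin 1 ⊕ Fin 6, Fin 1 ⊕ Fin 17, inferInstance, inferInstance, star 6, star 17, 9, 35, 45,
    star_antimagic (by norm_num), star_antimagic (by norm_num), union_antimagic, ?_, ?_, ?_,
    by norm_num⟩
  · exact isGreatest_tauSet (fun t ht => construct1 (by norm_num) (tab6_ok t (by omega)))
      (not_star 6 10 (by norm_num) (by norm_num))
  · exact isGreatest_tauSet (fun t ht => construct1 (by norm_num) (tab17_ok t (by omega)))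
      (not_star' 17 36 (by norm_num) (by norm_num))
  · exact isGreatest_tauSet
      (fun t ht => construct2 (by norm_num) (by norm_num) (tabU_ok t (by omega)))
      (not_union 6 17 46 (by norm_num) (by norm_num) (by norm_num))

end Pool.Agent.Results.MP_567833_co.NotSubadditive
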